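import Pool.Agent.V1157.BD.Defs
import Pool.Agent.V1157.RC.Defs2

/-!
# Homologically trivial correspondences on Albanese kernels of surfaces: definitions
-/

open CategoryTheory AlgebraicGeometry

universe u v w

namespace Pool.Agent.V1157.CE

open Pool.Agent.H914 Pool.Agent.H914.VarClass Pool.Agent.H914.VarClass.Obj Pool.Agent.W492.BB
  Pool.Agent.W550.Corr Pool.Agent.TH133 Pool.Agent.Y152.AS

variable {k : Type u} [Field k] {𝒱 : VarClass k} {C : TheoryData.{u, v, 0} 𝒱 ℚ} {K : Type w}
  [Field K] (H : WeilTheoryData.{u, v, w} C K)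

/-- Bloch's conjecture for self-correspondences of surfaces: a self-correspondence of a surface `X`
which is homologically equivalent to a degenerate one acts as zero on the Albanese kernel of
`X`. -/
def BlochSelf : Prop :=
  ∀ (X : 𝒱.Obj) (Γ : C.A (X.prod X)), X.dim = 2 → C.Deg 2 Γ → IsHomDegenerate H Γ →
    KillsAlbKer C Γ

/-- On the Albanese kernel of a surface `X` the homologically trivial self-correspondences commute
with all self-correspondences. -/
def Central : Prop :=
  ∀ (X : 𝒱.Obj) (Γ Δ : C.A (X.prod X)), X.dim = 2 → C.Deg 2 Γ → C.Deg 2 Δ → H.cl Γ = 0 →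
    KillsAlbKer C (C.comp Γ Δ - C.comp Δ Γ)

/-- The multilinear polynomial `∑ c(σ) W_{σ(0)} W_{σ(1)} ⋯ W_{σ(d)}` vanishes on the Albanese
kernel of a surface `X` whenever `W_0` is a homologically trivial self-correspondence of `X` and
`W_1, …, W_d` are arbitrary self-correspondences. -/
def MixedIdentity (d : ℕ) (c : Equiv.Perm (Fin (d + 1)) → ℚ) : Prop :=
  ∀ (X : 𝒱.Obj) (W : Fin (d + 1) → C.A (X.prod X)), X.dim = 2 → (∀ i, C.Deg 2 (W i)) →
    H.cl (W 0) = 0 → KillsAlbKer C (∑ σ, c σ • compList C X (List.ofFn fun i => W (σ i)))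

/-- For each surface `X` the operators on the Albanese kernel of `X` defined by the homologically
trivial self-correspondences form a vector space of dimension at most `D` over `ℚ`. -/
def DimAtMost (D : ℕ) : Prop :=
  ∀ (X : 𝒱.Obj) (Γ : Fin (D + 1) → C.A (X.prod X)), X.dim = 2 → (∀ i, C.Deg 2 (Γ i)) →
    (∀ i, H.cl (Γ i) = 0) → ∃ c : Fin (D + 1) → ℚ, c ≠ 0 ∧ KillsAlbKer C (∑ i, c i • Γ i)

end Pool.Agent.V1157.CE
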