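import Pool.Agent.V1157.CE.Defs
import Pool.Agent.V1157.BD.Main
import Pool.Agent.V1157.PI.Main

/-!
# Homologically trivial correspondences on Albanese kernels of surfaces
-/

open CategoryTheory AlgebraicGeometry

universe u v w

namespace Pool.Agent.V1157.CE

open Pool.Agent.H914 Pool.Agent.H914.VarClass Pool.Agent.H914.VarClass.Obj Pool.Agent.W492.BB
  Pool.Agent.W550.Corr Pool.Agent.TH133 Pool.Agent.Y148.BB Pool.Agent.Y152.AS
open Pool.Agent.V1157.RC (cog_gr pow_eq_sum pow_mem' act_smul' push_pull_of albKer_mem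
  albKer_degree graph_mem)
open Pool.Agent.V1157.BD (Pw HasPower exists_pw)
open Pool.Agent.V1157.PI (perm_eq_one)

set_option linter.unusedSectionVars false

variable {k : Type u} [Field k] {𝒱 : VarClass k} {C : TheoryData.{u, v, 0} 𝒱 ℚ}
  [hC : IsChowProj C] {S T V U X Y : 𝒱.Obj}

include hC

/-- The action of `(a × S + S × a) ^ 2` on zero-cycles of degree zero. -/
lemma act_pow_zero (hS : S.dim = 2) {a x : C.A S} (ha : a ∈ C.gr S 1) (hx : x ∈ C.gr S 2)
    (h0 : HasDegree C x 0) (c : ℚ) :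
    C.act (c • (C.pull (fst S S) a + C.pull (snd S S) a) ^ 2) x = 0 := by
  rw [act_smul', pow_eq_sum, act_sum, Finset.sum_eq_zero, smul_zero]
  intro j hj
  rw [act_smul']
  by_cases hj0 : j = 0
  · subst hj0
    rw [pow_zero, act_ext' (q := 0) (by rwa [one_mul]), zero_smul, smul_zero]
  · rw [act_ext_zero_of_lt (i := (j : ℤ) + 2) (C.mul_mem (pow_mem' ha j) hx) (by rw [hS]; omega),
      smul_zero]

/-- The correspondence `V → S → S → V` attached to `Z` and two morphisms `p, q : V ⟶ S`. -/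
noncomputable def tw (C : TheoryData.{u, v, 0} 𝒱 ℚ) {S V : 𝒱.Obj} (p q : V ⟶ S)
    (Z : C.A (S.prod S)) : C.A (V.prod V) :=
  C.comp (C.graph p) (C.comp Z (C.cograph q))

lemma act_tw (p q : V ⟶ S) (Z : C.A (S.prod S)) (x : C.A V) :
    C.act (tw C p q Z) x = C.pull q (C.act Z (C.push p x)) := by
  rw [tw, C.act_comp, C.act_comp, C.act_graph, C.act_cograph]

lemma tw_mem (hS : S.dim = 2) (hV : V.dim = 2) (p q : V ⟶ S) {Z : C.A (S.prod S)}
    (hZ : C.Deg 2 Z) : C.Deg 2 (tw C p q Z) := by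
  have g1 : C.graph p ∈ C.gr (V.prod S) 2 := gr_congr (by rw [hS]; norm_num) (graph_mem p)
  have g2 : C.cograph q ∈ C.gr (S.prod V) 2 := gr_congr (by rw [hS]; norm_num) (cograph_mem q)
  exact comp_mem2 hS hV g1 (comp_mem2 hS hS hZ g2)

section weil

variable {K : Type w} [Field K] {H : WeilTheoryData.{u, v, w} C K} [hH : IsWeilProj H]

lemma cl_tw {Z : C.A (S.prod S)} (hZ : H.cl Z = 0) (p q : V ⟶ S) : H.cl (tw C p q Z) = 0 := by
  rw [tw, cl_comp, cl_comp, hZ, zero_comp, comp_zero]

section power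

variable {N : ℕ} {p : ℕ → (V ⟶ S)} {a : C.A S} {b κ : ℚ} (h : Pw C 2 N p a b κ)
include h

omit hH in
lemma push_pull_eq {i : ℕ} (hi : i < N) (x : C.A S) :
    C.push (p i) (C.pull (p i) x) = κ • x := push_pull_of (h.pp i hi) x

lemma push_pull_zero (H : WeilTheoryData.{u, v, w} C K) [hH : IsWeilProj H] {i j : ℕ}
    (hi : i < N) (hj : j < N) (hij : i ≠ j) {x : C.A S} (hx : x ∈ albKer C S) :
    C.push (p j) (C.pull (p i) x) = 0 := by
  rw [← C.act_graph, ← C.act_cograph, ← C.act_comp, cog_gr, h.pq i hi j hj hij]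
  exact act_pow_zero h.dimS h.ha (albKer_mem h.dimS hx) (albKer_degree H h.dimS hx) b

omit hH in
lemma pull_alb (i : ℕ) {x : C.A S} (hx : x ∈ albKer C S) : C.pull (p i) x ∈ albKer C V := by
  rw [← C.act_cograph]
  exact act_albKer h.dimS h.dimV
    (gr_congr (by rw [h.dimS]; norm_num) (cograph_mem (p i))) hx

end power

/-- It is enough to consider homologically trivial correspondences. -/
lemma self_of_triv (hT : ∀ (S : 𝒱.Obj) (Γ : C.A (S.prod S)), S.dim = 2 → C.Deg 2 Γ →
    H.cl Γ = 0 → ∀ x ∈ albKer C S, C.act Γ x = 0) : BlochSelf H := by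
  intro S Γ hS hΓ hd x hx
  obtain ⟨W, hW, h1⟩ := hd.homDeg
  have hx' := inAlbKer_iff.1 hx
  have h2 := hT S (Γ - W) hS (Submodule.sub_mem _ hΓ (degenerate_le hS hW))
    (by rw [map_sub, h1, sub_self]) x hx'
  rw [C.act_sub, degenerate_act hS hW hx', sub_zero] at h2
  exact h2

theorem self_of_central (hP : ∀ (S : 𝒱.Obj) (N : ℕ), S.dim = 2 → HasPower C 2 N S)
    (hc : Central H) : BlochSelf H := by
  apply self_of_triv
  intro S Γ hS hΓ h0 x hx
  obtain ⟨V, p, a, b, κ, h⟩ := exists_pw hS (hP S 2 hS)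
  have h1 := hc V (tw C (p 0) (p 1) Γ) (tw C (p 1) (p 0) (dg C S)) h.dimV
    (tw_mem hS h.dimV _ _ hΓ) (tw_mem hS h.dimV _ _ (dg_mem2 hS)) (cl_tw h0 _ _)
    (C.pull (p 0) x) (inAlbKer_iff.2 (pull_alb h 0 hx))
  rw [C.act_sub, C.act_comp, C.act_comp, act_tw, act_tw, act_tw, act_tw,
    push_pull_zero h H (i := 0) (j := 1) (by norm_num) (by norm_num) (by norm_num) hx,
    C.act_map_zero, map_zero, map_zero, C.act_map_zero, map_zero, sub_zero,
    push_pull_eq h (by norm_num), push_pull_eq h (by norm_num), act_dg, act_map_smul, map_smul,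
    map_smul] at h1
  have h2 := congrArg (C.push (p 0)) h1
  rw [map_smul, map_smul, push_pull_eq h (by norm_num), map_zero] at h2
  have hκ := h.hκ
  simpa [hκ] using h2

theorem self_of_bounded (hP : ∀ (S : 𝒱.Obj) (N : ℕ), S.dim = 2 → HasPower C 2 N S) {D : ℕ}
    (hD : DimAtMost H D) : BlochSelf H := by
  apply self_of_triv
  intro S Γ hS hΓ h0 x hx
  obtain ⟨V, p, a, b, κ, h⟩ := exists_pw hS (hP S (D + 1) hS)
  obtain ⟨c, hc, h1⟩ := hD V (fun i => tw C (p i) (p i) Γ) h.dimV
    (fun i => tw_mem hS h.dimV _ _ hΓ) (fun i => cl_tw h0 _ _)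
  obtain ⟨i, hi⟩ : ∃ i, c i ≠ 0 := by
    by_contra hcon
    push Not at hcon
    exact hc (funext hcon)
  have h2 := h1 (C.pull (p i) x) (inAlbKer_iff.2 (pull_alb h i hx))
  rw [act_sum, Finset.sum_eq_single i] at h2
  · rw [act_smul', act_tw, push_pull_eq h i.2, act_map_smul, map_smul] at h2
    have h3 := congrArg (C.push (p i)) h2
    rw [map_smul, map_smul, push_pull_eq h i.2, map_zero] at h3
    have hκ := h.hκ
    simpa [hκ, hi] using h3
  · intro j _ hji
    rw [act_smul', act_tw, push_pull_zero h H i.2 j.2 (fun e => hji (Fin.ext e.symm)) hx,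
      C.act_map_zero, map_zero, smul_zero]
  · intro h3
    exact absurd (Finset.mem_univ i) h3

section stair

variable {d : ℕ} {p : ℕ → (V ⟶ S)} {a : C.A S} {b κ : ℚ} (h : Pw C 2 (d + 1) p a b κ)
include h

omit hH in
lemma compList_cons_act (Γ : C.A (X.prod X)) (W : List (C.A (X.prod X))) (x : C.A X) :
    C.act (compList C X (Γ :: W)) x = C.act (compList C X W) (C.act Γ x) := by
  rw [compList, C.act_comp]

/-- The staircase operators in an order different from the natural one. -/
lemma ops_ne (H : WeilTheoryData.{u, v, w} C K) [hH : IsWeilProj H] (Z : Fin d → C.A (S.prod S))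
    (hZ : ∀ i, C.Deg 2 (Z i)) {x : C.A S} (hx : x ∈ albKer C S)
    (l : List (Fin d)) (m : ℕ) (hm : m ≤ d)
    (hl : ¬ (∀ q : ℕ, ∀ hq : q < l.length, (l[q] : ℕ) = m + q)) :
    C.act (compList C V (l.map fun i : Fin d => tw C (p i) (p (i + 1)) (Z i)))
      (C.pull (p m) x) = 0 := by
  induction l generalizing m x with
  | nil => exact absurd (fun q hq => absurd hq (by simp)) hl
  | cons i l ih =>
    rw [List.map_cons, compList_cons_act h, act_tw]
    by_cases him : (i : ℕ) = m
    · subst him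
      rw [push_pull_eq h (by omega), act_map_smul, map_smul, act_map_smul, ih
        (act_albKer h.dimS h.dimS (hZ i) hx) (i + 1) (by omega) ?_, smul_zero]
      intro hcon
      apply hl
      intro q hq
      cases q with
      | zero => rfl
      | succ q =>
        rw [List.getElem_cons_succ, hcon q (by simpa using hq)]
        ring
    · rw [push_pull_zero h H (i := m) (j := i) (by omega) (by have := i.2; omega) (Ne.symm him) hx,
        C.act_map_zero, map_zero, C.act_map_zero]

/-- The staircase operators in the natural order, all but one of them without twist. -/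
lemma ops_stair (i₀ : Fin d) (Γ : C.A (S.prod S)) (x : C.A S) (e m : ℕ) (hm : m + e = d)
    (l : List (Fin d)) (hle : l.length = e)
    (hl : ∀ q : ℕ, ∀ hq : q < l.length, (l[q] : ℕ) = m + q) :
    C.act (compList C V (l.map fun i : Fin d => tw C (p i) (p (i + 1))
      (if i = i₀ then Γ else dg C S))) (C.pull (p m) x) =
      κ ^ e • C.pull (p d) (if m ≤ i₀ then C.act Γ x else x) := by
  induction e generalizing m l x with
  | zero =>
    rw [List.length_eq_zero_iff] at hle
    subst hle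
    rw [add_zero] at hm
    subst hm
    rw [pow_zero, one_smul, if_neg (by have := i₀.2; omega), List.map_nil, compList, act_dg]
  | succ e ih =>
    obtain ⟨i, l', rfl⟩ := List.exists_cons_of_length_eq_add_one hle
    have h1 : (i : ℕ) = m := by
      have := hl 0 (by simp)
      simpa using this
    rw [List.map_cons, compList_cons_act h, act_tw, ← h1, push_pull_eq h (by omega), act_map_smul,
      map_smul, act_map_smul, ih _ (i + 1) (by omega) l' (by simpa using hle) (fun q hq => ?_),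
      smul_smul, ← pow_succ']
    · congr 2
      by_cases hi : i = i₀
      · subst hi
        rw [if_pos rfl, if_neg (by omega), if_pos le_rfl]
      · rw [if_neg hi, act_dg]
        have h2 : (i : ℕ) ≠ i₀ := fun e => hi (Fin.ext e)
        by_cases h3 : (i : ℕ) + 1 ≤ i₀
        · rw [if_pos h3, if_pos (by omega)]
        · rw [if_neg h3, if_neg (by omega)]
    · have := hl (q + 1) (by simpa using hq)
      rw [List.getElem_cons_succ] at this
      omega

end stair

theorem self_of_identity (hP : ∀ (S : 𝒱.Obj) (N : ℕ), S.dim = 2 → HasPower C 2 N S) {d : ℕ}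
    {c : Equiv.Perm (Fin (d + 1)) → ℚ} (hc : c ≠ 0) (hI : MixedIdentity H d c) :
    BlochSelf H := by
  apply self_of_triv
  intro S Γ hS hΓ h0 x hx
  obtain ⟨V, p, a, b, κ, h⟩ := exists_pw hS (hP S (d + 1 + 1) hS)
  obtain ⟨σ, hσ⟩ : ∃ σ, c σ ≠ 0 := by
    by_contra hcon
    push Not at hcon
    exact hc (funext hcon)
  let Z : Fin (d + 1) → C.A (S.prod S) := fun i => if i = σ⁻¹ 0 then Γ else dg C S
  have hZ : ∀ i, C.Deg 2 (Z i) := by
    intro i
    by_cases hi : i = σ⁻¹ 0
    · simp only [Z, if_pos hi]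
      exact hΓ
    · simp only [Z, if_neg hi]
      exact dg_mem2 hS
  have h1 := hI V (fun i => tw C (p (σ⁻¹ i)) (p (σ⁻¹ i + 1)) (Z (σ⁻¹ i))) h.dimV
    (fun i => tw_mem hS h.dimV _ _ (hZ _)) (by
      have : Z (σ⁻¹ 0) = Γ := if_pos rfl
      rw [this]
      exact cl_tw h0 _ _) (C.pull (p 0) x) (inAlbKer_iff.2 (pull_alb h 0 hx))
  have e0 : ∀ τ : Equiv.Perm (Fin (d + 1)), (List.ofFn fun i => tw C (p (σ⁻¹ (τ i)))
      (p (σ⁻¹ (τ i) + 1)) (Z (σ⁻¹ (τ i)))) = (List.ofFn fun i => (σ⁻¹ * τ) i).map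
        fun i : Fin (d + 1) => tw C (p i) (p (i + 1)) (Z i) := by
    intro τ
    rw [List.map_ofFn]
    rfl
  rw [act_sum, Finset.sum_eq_single σ] at h1
  · rw [act_smul', e0, inv_mul_cancel] at h1
    have h2 := ops_stair h (σ⁻¹ 0) Γ x (d + 1) 0 (by omega)
      (List.ofFn fun i => (1 : Equiv.Perm (Fin (d + 1))) i) (by simp)
      (by intro q hq; rw [List.getElem_ofFn, zero_add]; rfl)
    rw [if_pos (Nat.zero_le _)] at h2
    rw [h2] at h1
    have h3 := congrArg (C.push (p (d + 1))) h1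
    rw [map_smul, map_smul, push_pull_eq h (by omega), map_zero] at h3
    have hκ := h.hκ
    simpa [hκ, hσ] using h3
  · intro τ _ hτ
    rw [act_smul', e0, ops_ne h H Z hZ hx _ 0 (by omega) ?_, smul_zero]
    intro hcon
    apply hτ
    have h3 : σ⁻¹ * τ = 1 := by
      ext i
      have h4 := hcon i (by rw [List.length_ofFn]; exact i.2)
      rw [List.getElem_ofFn, zero_add] at h4
      exact h4
    rw [inv_mul_eq_one] at h3
    exact h3.symm
  · intro h3
    exact absurd (Finset.mem_univ σ) h3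

/-- **Equivalent forms of Bloch's conjecture for self-correspondences of surfaces.** -/
theorem main (hP : ∀ (S : 𝒱.Obj) (N : ℕ), S.dim = 2 → HasPower C 2 N S) :
    List.TFAE [BlochSelf H, Central H, ∃ D, DimAtMost H D,
      ∃ (d : ℕ) (c : Equiv.Perm (Fin (d + 1)) → ℚ), c ≠ 0 ∧ MixedIdentity H d c] := by
  have key : BlochSelf H → ∀ (X : 𝒱.Obj) (Γ : C.A (X.prod X)), X.dim = 2 → C.Deg 2 Γ →
      H.cl Γ = 0 → ∀ x : C.A X, InAlbKer C x → C.act Γ x = 0 := by
    intro h X Γ hX hΓ h0 x hx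
    exact h X Γ hX hΓ ⟨0, IsDegenerate.zero, by rw [h0, map_zero]⟩ x hx
  tfae_have 1 → 2 := by
    intro h X Γ Δ hX hΓ hΔ h0 x hx
    rw [C.act_sub, C.act_comp, C.act_comp, key h X Γ hX hΓ h0 x hx, C.act_map_zero,
      key h X Γ hX hΓ h0 _ (inAlbKer_iff.2 (act_albKer hX hX hΔ (inAlbKer_iff.1 hx))), sub_zero]
  tfae_have 2 → 1 := self_of_central hP
  tfae_have 1 → 3 := by
    intro h
    refine ⟨0, fun X Γ hX hΓ h0 => ⟨fun _ => 1, ?_, ?_⟩⟩
    · intro h1
      exact one_ne_zero (congrFun h1 0)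
    · intro x hx
      rw [act_sum, Finset.sum_eq_zero]
      intro i _
      rw [act_smul', key h X _ hX (hΓ i) (h0 i) x hx, smul_zero]
  tfae_have 3 → 1 := fun ⟨D, hD⟩ => self_of_bounded hP hD
  tfae_have 1 → 4 := by
    intro h
    refine ⟨0, fun _ => 1, ?_, ?_⟩
    · intro h1
      exact one_ne_zero (congrFun h1 1)
    · intro X W hX hW h0 x hx
      rw [act_sum, Finset.sum_eq_zero]
      intro σ _
      have h1 : σ 0 = 0 := Fin.ext (by have := (σ 0).2; simp only [Fin.val_zero]; omega)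
      rw [act_smul', List.ofFn_succ, compList, C.act_comp, h1, key h X _ hX (hW 0) h0 x hx,
        C.act_map_zero, smul_zero]
  tfae_have 4 → 1 := fun ⟨d, c, hc, hI⟩ => self_of_identity hP hc hI
  tfae_finish

end weil

end Pool.Agent.V1157.CE
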